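import Mathlib

/-!
# Few outputs cover all inputs
-/

set_option autoImplicit false

namespace Pool.Agent.TH707.FS

open Finset

variable {α β : Type} [DecidableEq α] [DecidableEq β]

/-- Some output covers a large part of the set. -/
theorem exists_output {t K : ℕ} (hK : 1 ≤ K) (out : (Fin t → α) → β)
    (ht : 1 ≤ t) {Y : Finset α} (hY : Y.Nonempty) {I : Finset β}
    (hI : ∀ τ ∈ Fintype.piFinset (fun _ : Fin t => Y), out τ ∈ I) (hc : I.card ≤ K ^ t) :
    ∃ z ∈ I, ∃ C ⊆ Y, (Y.card : ℝ) / K ≤ C.card ∧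
      (∃ τ : Fin t → α, (∀ i, τ i ∈ Y) ∧ out τ = z) ∧
      ∀ y ∈ C, ∃ τ : Fin t → α, (∀ i, τ i ∈ Y) ∧ out τ = z ∧ ∃ i, τ i = y := by
  classical
  have hK0 : (0 : ℝ) < K := by exact_mod_cast hK
  set P : Finset (Fin t → α) := Fintype.piFinset (fun _ : Fin t => Y) with hP
  have hPc : P.card = Y.card ^ t := by
    rw [hP, Fintype.card_piFinset]
    simp
  have hPne : P.Nonempty := by
    obtain ⟨y, hy⟩ := hY
    exact ⟨fun _ => y, by rw [hP, Fintype.mem_piFinset]; exact fun _ => hy⟩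
  have hIne : I.Nonempty := by
    obtain ⟨τ, hτ⟩ := hPne
    exact ⟨out τ, hI τ hτ⟩
  set b : ℝ := ((Y.card : ℝ) / K) ^ t with hb
  have hb0 : 0 ≤ b := by positivity
  obtain ⟨z, hz, hzb⟩ := Finset.exists_le_card_fiber_of_nsmul_le_card_of_maps_to (f := out)
    (s := P) (t := I) (b := b) hI hIne (by
      rw [nsmul_eq_mul, hPc, hb, div_pow]
      have h1 : (I.card : ℝ) ≤ (K : ℝ) ^ t := by exact_mod_cast hc
      have h2 : (0 : ℝ) < (K : ℝ) ^ t := by positivity
      rw [mul_div_assoc', div_le_iff₀ h2]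
      push_cast
      rw [mul_comm]
      exact mul_le_mul_of_nonneg_left h1 (by positivity))
  set C : Finset α := Y.filter (fun y => ∃ τ : Fin t → α, (∀ i, τ i ∈ Y) ∧ out τ = z ∧
    ∃ i, τ i = y) with hC
  have hsub : P.filter (fun τ => out τ = z) ⊆ Fintype.piFinset (fun _ : Fin t => C) := by
    intro τ hτ
    rw [Finset.mem_filter, hP, Fintype.mem_piFinset] at hτ
    rw [Fintype.mem_piFinset]
    intro i
    rw [hC, Finset.mem_filter]
    exact ⟨hτ.1 i, τ, hτ.1, hτ.2, i, rfl⟩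
  have hle : (((P.filter (fun τ => out τ = z)).card : ℕ) : ℝ) ≤ (C.card : ℝ) ^ t := by
    have h1 := Finset.card_le_card hsub
    rw [Fintype.card_piFinset] at h1
    simp only [Finset.prod_const, Finset.card_univ, Fintype.card_fin] at h1
    exact_mod_cast h1
  have hfin : (Y.card : ℝ) / K ≤ C.card := by
    have h1 : ((Y.card : ℝ) / K) ^ t ≤ (C.card : ℝ) ^ t := hzb.trans hle
    exact (pow_le_pow_iff_left₀ (by positivity) (by positivity) (by omega)).1 h1
  refine ⟨z, hz, C, Finset.filter_subset _ _, hfin, ?_, fun y hy => ?_⟩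
  · have hYc : 0 < (Y.card : ℝ) := by exact_mod_cast hY.card_pos
    have h1 : 0 < (C.card : ℝ) := lt_of_lt_of_le (by positivity) hfin
    have h2 : 0 < C.card := by exact_mod_cast h1
    obtain ⟨y, hy⟩ := Finset.card_pos.1 h2
    rw [hC, Finset.mem_filter] at hy
    obtain ⟨_, τ, h3, h4, _⟩ := hy
    exact ⟨τ, h3, h4⟩
  · rw [hC, Finset.mem_filter] at hy
    exact hy.2

/-- the greedy algorithm -/
theorem greedy {t K : ℕ} (hK : 1 ≤ K) (ht : 1 ≤ t) (out : (Fin t → α) → β)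
    {X : Finset α} {I : Finset β}
    (hI : ∀ τ ∈ Fintype.piFinset (fun _ : Fin t => X), out τ ∈ I) (hc : I.card ≤ K ^ t) (s : ℕ) :
    ∃ (Z : Finset β) (Y : Finset α), Z.card ≤ s ∧ Y ⊆ X ∧
      (Y.card : ℝ) ≤ (1 - 1 / K) ^ s * X.card ∧
      (∀ z ∈ Z, ∃ τ : Fin t → α, (∀ i, τ i ∈ X) ∧ out τ = z) ∧
      ∀ x ∈ X, x ∉ Y → ∃ τ : Fin t → α, (∀ i, τ i ∈ X) ∧ (∃ i, τ i = x) ∧ out τ ∈ Z := by
  classical
  have hK0 : (0 : ℝ) < K := by exact_mod_cast hK
  have hK1 : (0 : ℝ) ≤ 1 - 1 / K := by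
    have : (1 : ℝ) / K ≤ 1 := by
      rw [div_le_one hK0]
      exact_mod_cast hK
    linarith
  induction s with
  | zero =>
    exact ⟨∅, X, by simp, Finset.Subset.refl _, by simp, by simp, fun x hx h => absurd hx h⟩
  | succ s ih =>
    obtain ⟨Z, Y, h1, h2, h3, h4, h5⟩ := ih
    rcases Y.eq_empty_or_nonempty with hY | hY
    · refine ⟨Z, ∅, h1.trans (Nat.le_succ s), Finset.empty_subset _, ?_, h4, fun x hx _ => ?_⟩
      · rw [Finset.card_empty, Nat.cast_zero]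
        positivity
      · exact h5 x hx (by rw [hY]; simp)
    · obtain ⟨z, _, C, hCY, hC, ⟨τ₀, hτ₀, hτ₀z⟩, hCz⟩ := exists_output (K := K) hK out ht hY (I := I)
        (fun τ hτ => hI τ (by
          rw [Fintype.mem_piFinset] at hτ ⊢
          exact fun i => h2 (hτ i))) hc
      refine ⟨insert z Z, Y \ C, (Finset.card_insert_le _ _).trans (Nat.succ_le_succ h1),
        Finset.sdiff_subset.trans h2, ?_, ?_, ?_⟩
      · rw [Finset.cast_card_sdiff hCY]
        calc (Y.card : ℝ) - C.card ≤ Y.card - Y.card / K := by linarith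
          _ = (1 - 1 / K) * Y.card := by ring
          _ ≤ (1 - 1 / K) * ((1 - 1 / K) ^ s * X.card) := mul_le_mul_of_nonneg_left h3 hK1
          _ = (1 - 1 / K) ^ (s + 1) * X.card := by ring
      · intro z' hz'
        rcases Finset.mem_insert.1 hz' with rfl | hz'
        · exact ⟨τ₀, fun i => h2 (hτ₀ i), hτ₀z⟩
        · exact h4 z' hz'
      · intro x hx hxY
        by_cases hxC : x ∈ C
        · obtain ⟨τ, h6, h7, h8⟩ := hCz x hxC
          exact ⟨τ, fun i => h2 (h6 i), h8, by rw [h7]; exact Finset.mem_insert_self _ _⟩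
        · have h6 : x ∉ Y := fun h => hxY (Finset.mem_sdiff.2 ⟨h, hxC⟩)
          obtain ⟨τ, h7, h8, h9⟩ := h5 x hx h6
          exact ⟨τ, h7, h8, Finset.mem_insert_of_mem h9⟩

/-- **Few outputs cover all inputs.** -/
theorem cover {t K m : ℕ} (hK : 1 ≤ K) (ht : 1 ≤ t) (out : (Fin t → α) → β)
    {X : Finset α} {I : Finset β} (hX : X.card ≤ 2 ^ m)
    (hI : ∀ τ ∈ Fintype.piFinset (fun _ : Fin t => X), out τ ∈ I) (hc : I.card ≤ K ^ t) :
    ∃ Z : Finset β, Z.card ≤ K * (m + 1) ∧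
      (∀ z ∈ Z, ∃ τ : Fin t → α, (∀ i, τ i ∈ X) ∧ out τ = z) ∧
      ∀ x ∈ X, ∃ τ : Fin t → α, (∀ i, τ i ∈ X) ∧ (∃ i, τ i = x) ∧ out τ ∈ Z := by
  have hK0 : (0 : ℝ) < K := by exact_mod_cast hK
  obtain ⟨Z, Y, h1, _, h3, h4, h5⟩ := greedy hK ht out hI hc (K * (m + 1))
  refine ⟨Z, h1, h4, fun x hx => h5 x hx ?_⟩
  have h6 : (Y.card : ℝ) < 1 := by
    have e1 : (1 - 1 / (K : ℝ)) ≤ Real.exp (-(1 / K)) := by
      have := Real.add_one_le_exp (-(1 / (K : ℝ)))
      linarith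
    have hK1 : (0 : ℝ) ≤ 1 - 1 / K := by
      have : (1 : ℝ) / K ≤ 1 := by
        rw [div_le_one hK0]
        exact_mod_cast hK
      linarith
    have e2 : (1 - 1 / (K : ℝ)) ^ (K * (m + 1)) ≤ Real.exp (-1) ^ (m + 1) := by
      calc (1 - 1 / (K : ℝ)) ^ (K * (m + 1)) ≤ Real.exp (-(1 / K)) ^ (K * (m + 1)) :=
            pow_le_pow_left₀ hK1 e1 _
        _ = (Real.exp (-(1 / K)) ^ K) ^ (m + 1) := pow_mul _ _ _
        _ = Real.exp (-1) ^ (m + 1) := by
            rw [← Real.exp_nat_mul]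
            congr 2
            field_simp
    have e3 : Real.exp (-1) < 1 / 2 := by
      rw [Real.exp_neg, inv_lt_comm₀ (Real.exp_pos 1) (by norm_num)]
      have := Real.exp_one_gt_d9
      norm_num
      linarith
    have e4 : Real.exp (-1) ^ (m + 1) < (1 / 2) ^ (m + 1) :=
      pow_lt_pow_left₀ e3 (Real.exp_pos _).le (by omega)
    have e5 : (X.card : ℝ) ≤ 2 ^ m := by exact_mod_cast hX
    calc (Y.card : ℝ) ≤ (1 - 1 / K) ^ (K * (m + 1)) * X.card := h3
      _ ≤ Real.exp (-1) ^ (m + 1) * X.card := mul_le_mul_of_nonneg_right e2 (by positivity)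
      _ ≤ Real.exp (-1) ^ (m + 1) * 2 ^ m := mul_le_mul_of_nonneg_left e5 (by positivity)
      _ < (1 / 2) ^ (m + 1) * 2 ^ m := mul_lt_mul_of_pos_right e4 (by positivity)
      _ = 1 / 2 := by
          rw [pow_succ, mul_right_comm, ← mul_pow]
          norm_num
      _ < 1 := by norm_num
  have h7 : Y.card = 0 := by
    have : Y.card < 1 := by exact_mod_cast h6
    omega
  rw [Finset.card_eq_zero.1 h7]
  exact Finset.notMem_empty x

end Pool.Agent.TH707.FS
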