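import Pool.Agent.TH707.FS.Cover
import Pool.Agent.TH680.OR.Col
import Pool.Agent.TH680.SE.Sat

/-!
# The theorem of Fortnow and Santhanam relative to an oracle
-/

set_option autoImplicit false

namespace Pool.Agent.TH707.FS

open Pool.Agent.NPC Pool.Agent.H620R2.Gauge Pool.Agent.H591R3.PHG Pool.Agent.H622R2
  Pool.Agent.W900.IE Pool.Agent.TH680.OR

/-- A weak OR-compression of the language `L` to the language `R`, relative to `A`: a function `D`
which is computed in polynomial time relative to `A`, with the help of arbitrary advice strings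
`h n` of polynomial length, and maps, for every `n`, every list `xs` of `t = n ^ b + b` strings of
length at most `n` (as the bit string `bits xs`) to a string which is in `R` if and only if some
member of `xs` is in `L`; the length of this string is at most `c t log (t + 2)`. -/
def WeakCompression (A : Oracle) (L R : Set (List Bool)) : Prop :=
  ∃ (D : List Bool → List Bool) (h : ℕ → List Bool) (b c : ℕ), IsFP A D ∧
    (∃ p : Polynomial ℕ, ∀ n, (h n).length ≤ p.eval n) ∧
    ∀ (n : ℕ) (xs : List (List Bool)), xs.length = n ^ b + b → (∀ x ∈ xs, x.length ≤ n) →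
      (D (pairBits (h n) (bits xs))).length ≤ c * ((n ^ b + b) * Nat.log 2 (n ^ b + b + 2)) ∧
      (D (pairBits (h n) (bits xs)) ∈ R ↔ ∃ x ∈ xs, x ∈ L)

theorem one_le_t (n b : ℕ) : 1 ≤ n ^ b + b := by
  rcases Nat.eq_zero_or_pos b with h | h
  · subst h
    simp
  · omega

theorem weak_of_compression {A : Oracle} {L R : Set (List Bool)} (h : ORCompression A L R) :
    WeakCompression A L R := by
  obtain ⟨D, p, hD, h⟩ := h
  obtain ⟨b, hb⟩ := W900.IE.poly_le p 0
  refine ⟨fun y => D (unpair y).2, fun _ => [], b, 1, hD.precomp poly_u2, ⟨0, fun n => by simp⟩,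
    fun n xs hxs hn => ?_⟩
  simp only [unpair_pairBits]
  have hne : xs ≠ [] := by
    rintro rfl
    have := one_le_t n b
    simp only [List.length_nil] at hxs
    omega
  obtain ⟨h1, h2⟩ := h xs hne
  refine ⟨(h1 n hn).trans ?_, h2⟩
  have h3 := hb n
  have h4 : 1 ≤ Nat.log 2 (n ^ b + b + 2) :=
    Nat.log_pos (by norm_num) (by omega)
  have h5 : p.eval n ≤ n ^ b + b := by omega
  calc p.eval n ≤ (n ^ b + b) * 1 := by omega
    _ ≤ (n ^ b + b) * Nat.log 2 (n ^ b + b + 2) := Nat.mul_le_mul_left _ h4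
    _ = _ := (one_mul _).symm

/-- the strings of length at most `l` -/
def upTo (l : ℕ) : Finset (List Bool) := (Finset.range (l + 1)).biUnion TH680.DT.strs

theorem mem_upTo {l : ℕ} {x : List Bool} : x ∈ upTo l ↔ x.length ≤ l := by
  unfold upTo
  rw [Finset.mem_biUnion]
  constructor
  · rintro ⟨k, hk, hx⟩
    rw [Finset.mem_range] at hk
    rw [TH680.DT.mem_strs] at hx
    omega
  · intro h
    exact ⟨x.length, Finset.mem_range.2 (by omega), TH680.DT.mem_strs.2 rfl⟩

theorem card_upTo (l : ℕ) : (upTo l).card ≤ 2 ^ (l + 1) := by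
  unfold upTo
  refine Finset.card_biUnion_le.trans ?_
  have h1 : ∀ k ∈ Finset.range (l + 1), (TH680.DT.strs k).card ≤ 2 ^ k := fun k _ => by
    rw [TH680.SE.card_strs]
  refine (Finset.sum_le_sum h1).trans ?_
  have h2 := Nat.geomSum_lt (m := 2) (n := l + 1) (s := Finset.range (l + 1)) le_rfl
    (fun k hk => Finset.mem_range.1 hk)
  exact h2.le

/-- few outputs -/
theorem card_out (c t : ℕ) (ht : 1 ≤ t) :
    (upTo (c * (t * Nat.log 2 (t + 2)))).card ≤ ((t + 2) ^ (c + 1)) ^ t := by
  refine (card_upTo _).trans ?_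
  have h1 : 1 ≤ Nat.log 2 (t + 2) := Nat.log_pos (by norm_num) (by omega)
  have h2 : 2 ^ Nat.log 2 (t + 2) ≤ t + 2 := Nat.pow_log_le_self 2 (by omega)
  have h3 : 1 ≤ t * Nat.log 2 (t + 2) := Nat.mul_pos ht h1
  calc 2 ^ (c * (t * Nat.log 2 (t + 2)) + 1)
      ≤ 2 ^ ((c + 1) * (t * Nat.log 2 (t + 2))) := by
        apply Nat.pow_le_pow_right (by norm_num)
        rw [add_mul, one_mul]
        omega
    _ = (((2 ^ Nat.log 2 (t + 2)) ^ (c + 1))) ^ t := by
        rw [← pow_mul, ← pow_mul]
        congr 1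
        ring
    _ ≤ ((t + 2) ^ (c + 1)) ^ t := Nat.pow_le_pow_left (Nat.pow_le_pow_left h2 _) _

/-- **The certificates.** -/
theorem exists_advice {D : ℕ → List Bool → List Bool} {L R : Set (List Bool)} {b c : ℕ}
    (h : ∀ (n : ℕ) (xs : List (List Bool)), xs.length = n ^ b + b → (∀ x ∈ xs, x.length ≤ n) →
      (D n (bits xs)).length ≤ c * ((n ^ b + b) * Nat.log 2 (n ^ b + b + 2)) ∧
      (D n (bits xs) ∈ R ↔ ∃ x ∈ xs, x ∈ L)) (n : ℕ) :
    ∃ Z : List (List Bool), Z.length ≤ (n ^ b + b + 2) ^ (c + 1) * (n + 2) ∧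
      (∀ z ∈ Z, z.length ≤ c * ((n ^ b + b) * Nat.log 2 (n ^ b + b + 2)) ∧ z ∉ R) ∧
      ∀ x : List Bool, x.length ≤ n → x ∉ L → ∃ xs : List (List Bool),
        xs.length = n ^ b + b ∧ (∀ y ∈ xs, y.length ≤ n) ∧ x ∈ xs ∧ D n (bits xs) ∈ Z := by
  classical
  set t := n ^ b + b with ht
  have ht1 : 1 ≤ t := one_le_t n b
  set X : Finset (List Bool) := (upTo n).filter (fun x => x ∉ L) with hX
  have hXc : X.card ≤ 2 ^ (n + 1) := (Finset.card_filter_le _ _).trans (card_upTo n)
  set out : (Fin t → List Bool) → List Bool := fun τ => D n (bits (List.ofFn τ)) with hout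
  have hlist : ∀ τ : Fin t → List Bool, (∀ i, τ i ∈ X) →
      (List.ofFn τ).length = t ∧ (∀ y ∈ List.ofFn τ, y.length ≤ n) ∧
        ∀ y ∈ List.ofFn τ, y ∉ L := by
    intro τ hτ
    refine ⟨by simp, fun y hy => ?_, fun y hy => ?_⟩
    · rw [List.mem_ofFn] at hy
      obtain ⟨i, rfl⟩ := hy
      exact mem_upTo.1 (Finset.mem_filter.1 (hτ i)).1
    · rw [List.mem_ofFn] at hy
      obtain ⟨i, rfl⟩ := hy
      exact (Finset.mem_filter.1 (hτ i)).2
  have hprop : ∀ τ : Fin t → List Bool, (∀ i, τ i ∈ X) →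
      (out τ).length ≤ c * (t * Nat.log 2 (t + 2)) ∧ out τ ∉ R := by
    intro τ hτ
    obtain ⟨h1, h2, h3⟩ := hlist τ hτ
    obtain ⟨h4, h5⟩ := h n (List.ofFn τ) h1 h2
    refine ⟨h4, fun hcon => ?_⟩
    obtain ⟨y, hy, hyL⟩ := h5.1 hcon
    exact h3 y hy hyL
  obtain ⟨Z, hZ1, hZ2, hZ3⟩ := cover (K := (t + 2) ^ (c + 1)) (m := n + 1)
    (Nat.one_le_pow _ _ (by omega)) ht1 out hXc
    (I := upTo (c * (t * Nat.log 2 (t + 2)))) (fun τ hτ => by
      rw [Fintype.mem_piFinset] at hτ
      exact mem_upTo.2 (hprop τ hτ).1) (card_out c t ht1)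
  refine ⟨Z.toList, ?_, fun z hz => ?_, fun x hx hxL => ?_⟩
  · rw [Finset.length_toList]
    exact hZ1
  · rw [Finset.mem_toList] at hz
    obtain ⟨τ, hτ, rfl⟩ := hZ2 z hz
    exact hprop τ hτ
  · obtain ⟨τ, hτ, ⟨i, hi⟩, hz⟩ := hZ3 x (by
      rw [hX, Finset.mem_filter, mem_upTo]
      exact ⟨hx, hxL⟩)
    obtain ⟨h1, h2, _⟩ := hlist τ hτ
    refine ⟨List.ofFn τ, h1, h2, ?_, Finset.mem_toList.2 hz⟩
    rw [List.mem_ofFn]
    exact ⟨i, hi⟩

/-- the check of the certificate: `v = ⟨D w, ⟨f x, ⟨w, ⟨x, a⟩⟩⟩⟩` -/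
noncomputable def chk (r T : Polynomial ℕ) (v : List Bool) : List Bool :=
  [decide ((unpair (unpair v).2).1 ∈ dcl (unpair (unpair (unpair v).2).2).1) &&
    (decide ((dcl (unpair (unpair (unpair v).2).2).1).length =
      T.eval (unpair (unpair (unpair (unpair v).2).2).2).1.length) &&
    (decide ((dcl (unpair (unpair (unpair v).2).2).1).filter (fun z => decide (z.length ≤
      r.eval (unpair (unpair (unpair (unpair v).2).2).2).1.length)) =
        dcl (unpair (unpair (unpair v).2).2).1) &&
    decide ((unpair v).1 ∈ dcl (unpair (unpair (unpair (unpair (unpair v).2).2).2).2).2)))]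

theorem poly_chk (r T : Polynomial ℕ) : Poly (chk r T) := by
  have h2 : Poly (fun v : List Bool => (unpair v).2) := poly_u2
  have h22 : Poly (fun v : List Bool => (unpair (unpair v).2).2) := poly_u2.comp h2
  have h222 : Poly (fun v : List Bool => (unpair (unpair (unpair v).2).2).2) := poly_u2.comp h22
  have hw : Poly (fun v : List Bool => dcl (unpair (unpair (unpair v).2).2).1) :=
    poly_dcl.comp (poly_u1.comp h22)
  have hx : Poly (fun v : List Bool => (unpair (unpair (unpair (unpair v).2).2).2).1) :=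
    poly_u1.comp h222
  have ha : Poly (fun v : List Bool =>
      dcl (unpair (unpair (unpair (unpair (unpair v).2).2).2).2).2) :=
    poly_dcl.comp (poly_u2.comp (poly_u2.comp h222))
  refine Poly.cons (Poly.and (Poly.dec_mem (poly_u1.comp h2) hw) (Poly.and
    (Poly.decide_eq (Poly.length hw) (UPoly.eval (UPoly.length hx) T).toPoly) (Poly.and
    (Poly.decide_eq (Poly.filter (p := fun (v : List Bool) (z : List Bool) =>
      decide (z.length ≤ r.eval (unpair (unpair (unpair (unpair v).2).2).2).1.length)) hw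
      (Poly.decide_le (Poly.length (Poly.snd Poly.id))
        (UPoly.eval (UPoly.length (hx.comp (Poly.fst Poly.id))) r).toPoly)) hw)
    (Poly.dec_mem poly_u1 ha)))) (NPC.Poly.const [])

/-- **The theorem of Fortnow and Santhanam relative to an oracle.** -/
theorem fortnow_santhanam {A : Oracle} {L R : Set (List Bool)} (hL : NPHardRel A L)
    (h : WeakCompression A L R) {L' : Set (List Bool)} (hL' : IsNP A L') :
    WithAdvice (IsNP A) L'ᶜ := by
  classical
  obtain ⟨D, e, b, c, hD, ⟨pe, hpe⟩, h⟩ := h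
  obtain ⟨f, hf, hfL⟩ := hL L' hL'
  obtain ⟨r, hr⟩ : ∃ r : Polynomial ℕ, ∀ x, (f x).length ≤ r.eval x.length := by
    obtain ⟨M, hM⟩ := hf
    obtain ⟨r, hr⟩ := M.out_length
    exact ⟨r, fun x => hr A x _ (hM x)⟩
  choose Z hZ1 hZ2 hZ3 using exists_advice (D := fun n y => D (pairBits (e n) y)) h
  set T : Polynomial ℕ := r ^ b + Polynomial.C b with hT
  have hTe : ∀ n, T.eval n = (r.eval n) ^ b + b := fun n => by
    rw [hT]
    simp only [Polynomial.eval_add, Polynomial.eval_pow, Polynomial.eval_C]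
  -- the language
  have hG1 : IsFP A (fun u => D (pairBits (unpair (unpair (unpair u).2).2).1
      (bits (dcl (unpair u).1)))) :=
    hD.precomp (g := fun u => pairBits (unpair (unpair (unpair u).2).2).1
      (bits (dcl (unpair u).1))) (poly_pairBits (poly_u1.comp (poly_u2.comp poly_u2))
        (poly_of_polyTime (polyTime_bits (poly_dcl.comp poly_u1))))
  have hG2 : IsFP A (fun u => f (unpair (unpair u).2).1) :=
    hf.precomp (g := fun u => (unpair (unpair u).2).1) (poly_u1.comp poly_u2)
  have hG3 : IsFP A (fun u => pairBits (D (pairBits (unpair (unpair (unpair u).2).2).1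
      (bits (dcl (unpair u).1)))) (pairBits (f (unpair (unpair u).2).1) u)) :=
    hG1.pair (hG2.pair (IsFP.of_poly Poly.id))
  have hG4 := isFP_postcomp hG3 (poly_chk r T)
  set V : Set (List Bool) := {u | chk r T (pairBits (D (pairBits
      (unpair (unpair (unpair u).2).2).1 (bits (dcl (unpair u).1))))
      (pairBits (f (unpair (unpair u).2).1) u)) = [true]} with hV
  have hVP : IsP A V := ⟨_, hG4, fun u => Iff.rfl⟩
  set m : List Bool → ℕ := fun y => T.eval (unpair y).1.length *
    (4 * r.eval (unpair y).1.length + 1 + 1) + 1 with hm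
  have hmp : UPoly m := by
    have e1 : UPoly (fun y : List Bool => (unpair y).1.length) := UPoly.length poly_u1
    exact UPoly.add (UPoly.mul (UPoly.eval e1 T) (UPoly.add (UPoly.add (UPoly.mul
      (UPoly.const 4) (UPoly.eval e1 r)) (UPoly.const 1)) (UPoly.const 1))) (UPoly.const 1)
  have hN := Pool.Agent.TH680.NPP.isNP_ex (Pool.Agent.TH680.NPP.isNP_of_p hVP) hmp
  refine ⟨_, fun n => pairBits (e (r.eval n)) (bits (Z (r.eval n))),
    2 * pe.comp r + 1 + (((T + 2) ^ (c + 1) * (r + 2)) *
      (4 * (Polynomial.C c * (T * (T + 2))) + 1 + 1) + 1), hN,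
    fun n => ?_, fun x => ?_⟩
  · rw [length_pairBits, bits_length]
    have h0 := hpe (r.eval n)
    have h1 := sz_le_length_mul (Z (r.eval n)) (4 * (c * (T.eval n * (T.eval n + 2))) + 1) (by
      intro z hz
      have h2 := sz_listBool_le z
      have h3 := (hZ2 _ z hz).1
      have h4 : c * ((r.eval n ^ b + b) * Nat.log 2 (r.eval n ^ b + b + 2)) ≤
          c * (T.eval n * (T.eval n + 2)) := by
        rw [hTe]
        exact Nat.mul_le_mul_left _ (Nat.mul_le_mul_left _ (Nat.log_le_self _ _))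
      omega)
    have h2 := hZ1 (r.eval n)
    rw [← hTe] at h2
    simp only [Polynomial.eval_add, Polynomial.eval_mul, Polynomial.eval_pow,
      Polynomial.eval_ofNat, Polynomial.eval_one, Polynomial.eval_C, Polynomial.eval_comp]
    have h3 := h1.trans (Nat.add_le_add_right (Nat.mul_le_mul_right
      (4 * (c * (T.eval n * (T.eval n + 2))) + 1 + 1) h2) 1)
    exact Nat.add_le_add (by omega) h3
  · rw [Set.mem_compl_iff, hfL]
    simp only [Set.mem_ofPred_eq, hV, unpair_pairBits, chk, List.cons.injEq, and_true,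
      Bool.and_eq_true, decide_eq_true_eq]
    constructor
    · intro hx
      obtain ⟨xs, h1, h2, h3, h4⟩ := hZ3 _ (f x) (hr x) hx
      refine ⟨bits xs, ?_, ?_⟩
      · rw [bits_length, hm]
        simp only [unpair_pairBits]
        have h5 := sz_le_length_mul xs (4 * r.eval x.length + 1) (by
          intro z hz
          have h6 := sz_listBool_le z
          have h7 := h2 z hz
          omega)
        rw [h1, ← hTe] at h5
        exact h5
      · simp only [dcl_bits]
        refine ⟨h3, by rw [h1, hTe], ?_, h4⟩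
        rw [List.filter_eq_self]
        intro z hz
        exact decide_eq_true (h2 z hz)
    · rintro ⟨w, _, h1, h2, h3, h4⟩ hx
      rw [dcl_bits] at h4
      have h5 := (hZ2 _ _ h4).2
      have h6 : ∀ z ∈ dcl w, z.length ≤ r.eval x.length := by
        intro z hz
        rw [List.filter_eq_self] at h3
        exact of_decide_eq_true (h3 z hz)
      rw [hTe] at h2
      exact h5 (((h (r.eval x.length) (dcl w) h2 h6).2).2 ⟨f x, h1, hx⟩)

end Pool.Agent.TH707.FS
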