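import Pool.Agent.TH707.FS.Fort
import Pool.Agent.TH707.SP.Adv
import Pool.Agent.W900.CH.NELev

/-!
# OR-compressions near random oracles
-/

set_option autoImplicit false

namespace Pool.Agent.TH707.FS

open Pool.Agent.NPC Pool.Agent.H620R2.Gauge Pool.Agent.TH680.OR

/-- There are complete languages for `NP` relative to every oracle. -/
theorem exists_npc (A : Oracle) : ∃ L, NPCompleteRel A L := by
  obtain ⟨K, h1, h2⟩ := Pool.Agent.TH707.SP.exists_complete A
  exact ⟨K, h1, h2⟩

/-- no compression if `NP` is not contained in `coNP/poly` -/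
theorem no_compression {A : Oracle} (h : ∃ L, IsNP A L ∧ ¬ WithAdvice (IsNP A) Lᶜ)
    {L R : Set (List Bool)} (hL : NPHardRel A L) :
    ¬ WeakCompression A L R ∧ ¬ ORCompression A L R := by
  have h1 : ¬ WeakCompression A L R := by
    intro hc
    obtain ⟨L', h2, h3⟩ := h
    exact h3 (fortnow_santhanam hL hc h2)
  exact ⟨h1, fun h2 => h1 (weak_of_compression h2)⟩

/-- all distillations exist if `PSPACE` reduces to the oracle -/
theorem distillation_of {A : Oracle}
    (h : ∀ L, IsPSPACE A L → Reduces L {x | A x = true}) {L : Set (List Bool)}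
    (hL : NPCompleteRel A L) : ORDistillation A L ∧ ANDDistillation A L :=
  dist_of_eq (fun L hL => isP_of_reduces (h L hL.isPSPACE)) hL

end Pool.Agent.TH707.FS
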